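import Mathlib

set_option autoImplicit false

namespace Pool.Agent.H.MP_769d7c_al

open Set Function HNNExtension NormalWord

/-- boundedly oscillating functions on the finitary ballean -/
def BO {G : Type} [Group G] (f : G → ℝ) : Prop := ∃ C > 0, ∀ F : Set G, F.Finite →
  ∃ B : Set G, B.Finite ∧ ∀ x ∉ B, ∀ g ∈ insert 1 F, ∀ h ∈ insert 1 F, |f (g * x) - f (h * x)| < C

/-- slowly oscillating functions on the finitary ballean -/
def SO {G : Type} [Group G] (f : G → ℝ) : Prop := ∀ F : Set G, F.Finite → ∀ ε > 0,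
  ∃ B : Set G, B.Finite ∧ ∀ x ∉ B, ∀ g ∈ insert 1 F, ∀ h ∈ insert 1 F, |f (g * x) - f (h * x)| < ε

/-- bounded outside a finite set -/
def Bd {G : Type} (f : G → ℝ) : Prop := ∃ B : Set G, B.Finite ∧ ∃ M, ∀ x ∉ B, |f x| ≤ M

variable {V : Type} [CommGroup V] {P Q : Subgroup V} (φ : P ≃* Q)

theorem so [Uncountable P] (ψ : HNNExtension V P Q φ → ℝ) (H : SO ψ) : Bd ψ := by
  have h1 : ∀ g, ∀ ε > 0, {x | ε ≤ |ψ (g * x) - ψ x|}.Finite := fun g ε e =>
    let ⟨B, b, c⟩ := H {g} (finite_singleton g) ε e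
    b.subset fun x p => by_contra fun q => not_lt.2 p (by simpa using c x q g (.inr rfl) 1 (.inl rfl))
  have h2 : ∀ g, {x | ψ (g * x) ≠ ψ x}.Countable := fun g =>
    (countable_iUnion fun n : ℕ => (h1 g _ (Nat.one_div_pos_of_nat (n := n))).countable).mono
      fun x p => mem_iUnion.2 ((exists_nat_one_div_lt (abs_pos.2 (sub_ne_zero.2 p))).imp
        fun _ c => c.le)
  have ex : ∀ {s : Set P}, s.Countable → ∃ p, p ∉ s := fun c =>
    (ne_univ_iff_exists_notMem _).1 fun e => not_countable_univ (e ▸ c)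
  have i : ∀ y, Injective fun v : V => (of v : HNNExtension V P Q φ) * y := fun y =>
    (mul_left_injective y).comp (of_injective φ)
  have : ∀ y, ∃ c, {v : V | ψ (of v * y) ≠ c}.Countable := fun y => by
    let h := fun n => (Infinite.natEmbedding P n).1
    have k := countable_iUnion fun n => (h2 (of (h n))).preimage (i y)
    obtain ⟨v, hv⟩ := ex (k.preimage Subtype.val_injective)
    refine ⟨ψ (of v.1 * y), k.mono fun w p => by_contra fun q => ?_⟩
    have e := half_pos (abs_pos.2 (sub_ne_zero.2 p))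
    obtain ⟨n, hn⟩ := (((h1 (of v.1) _ e).union (h1 (of w) _ e)).preimage ((i y).comp
      (Subtype.val_injective.comp (Infinite.natEmbedding P).injective)).injOn).exists_notMem
    have f : ∀ u : V, of u * (of (h n) * y) = of (h n) * (of u * y) := fun u => by
      rw [← mul_assoc, ← mul_assoc, ← map_mul, ← map_mul, mul_comm u]
    simp only [mem_preimage, mem_iUnion, mem_union, mem_ofPred_eq, not_exists, not_not, not_or,
      not_le, comp] at hv q hn
    obtain ⟨a, b⟩ := hn
    rw [f, hv n, abs_sub_comm] at a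
    rw [f, q n] at b
    linarith [abs_sub_le (ψ (of w * y)) (ψ (of (h n) * y)) (ψ (of v.1 * y))]
  choose c hc using this
  have e : ∀ g y, c (g * y) = c y := fun g => by
    induction g using induction_on with
    | of w =>
      intro y
      obtain ⟨p, hp⟩ := ex (((hc (of w * y)).union ((hc y).preimage (mul_left_injective w))).preimage
        Subtype.val_injective)
      simp only [mem_preimage, mem_union, mem_ofPred_eq, not_or, not_not, map_mul, mul_assoc] at hp
      exact hp.1.symm.trans hp.2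
    | t =>
      intro y
      obtain ⟨p, hp⟩ := ex (((hc (t * y)).preimage (Subtype.val_injective.comp φ.injective)).union
        (((hc y).union ((h2 t).preimage (i y))).preimage Subtype.val_injective))
      simp only [mem_preimage, mem_union, mem_ofPred_eq, not_or, not_not, comp] at hp
      rw [← hp.1, ← mul_assoc, ← t_mul_of, mul_assoc, hp.2.2, hp.2.1]
    | mul a b p q => exact fun y => by rw [mul_assoc, p, q]
    | inv a p => exact fun y => by rw [← p, mul_inv_cancel_left]
  refine ⟨{x | 1 ≤ |ψ x - c 1|}, by_contra fun n => ?_, |c 1| + 1, fun x p => ?_⟩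
  · let z := fun k => (Set.Infinite.natEmbedding _ n k).1
    obtain ⟨v, hv⟩ := ex ((countable_iUnion fun k => hc (z k)).preimage Subtype.val_injective)
    obtain ⟨k, hk⟩ := ((h1 (of v.1) 1 one_pos).preimage (Subtype.val_injective.comp
      (Set.Infinite.natEmbedding _ n).injective).injOn).exists_notMem
    simp only [mem_preimage, mem_iUnion, mem_ofPred_eq, not_exists, not_not] at hv
    refine hk (show 1 ≤ |ψ (_ * z k) - ψ (z k)| from ?_)
    rw [hv, ← mul_one (z k), e, mul_one, abs_sub_comm]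
    exact (Set.Infinite.natEmbedding _ n k).2
  linarith [abs_sub_abs_le_abs_sub (ψ x) (c 1), (not_le.1 p : |ψ x - c 1| < 1)]

open Classical in
theorem bo (hPQ : ∀ v ∈ P, v ∈ Q → v = 1) : ∃ f : HNNExtension V P Q φ → ℝ, BO f ∧ ¬ Bd f := by
  choose T t1 t2 using fun u => (toSubgroup P Q u).exists_isComplement_right 1
  let d : TransversalPair V P Q := ⟨T, t1⟩
  let L : HNNExtension V P Q φ → List (ℤˣ × V) := fun x => (x • (empty : NormalWord d)).toList
  let R : ℕ → List (ℤˣ × V) := fun i => List.replicate i (1, 1)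
  let n : HNNExtension V P Q φ → ℕ := fun x => Nat.findGreatest (R · <:+ L x) (L x).length
  have r : ∀ {i j}, i ≤ j → R i <:+ R j := fun l => ⟨_, List.replicate_append_replicate.trans
    (congrArg (List.replicate · _) (Nat.sub_add_cancel l))⟩
  have hn : ∀ x i, i ≤ n x ↔ R i <:+ L x := fun x i => ⟨fun l => (r l).trans
    (Nat.findGreatest_spec (P := (R · <:+ L x)) (Nat.zero_le _) List.nil_suffix), fun l =>
      Nat.le_findGreatest (by simpa [R] using l.length_le) l⟩
  have pr : ∀ (w : NormalWord d) i, w.toList = R i → w.prod φ = of w.head * t ^ i := fun w i e => by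
    simp [ReducedWord.prod, e, R]
  have cn : ∀ x y a, L y = a :: L x → n y ≤ n x + 1 ∧ n x ≤ n y + 1 := fun x y a e =>
    ⟨tsub_le_iff_right.1 ((hn x _).2 ((List.suffix_cons_iff.1 (e ▸ (hn y _).1 le_rfl)).elim
      (fun c => by rw [show L x = R (n y - 1) by simpa [R] using (congrArg List.tail c).symm])
      ((r (Nat.sub_le _ _)).trans ·))), le_add_right ((hn y _).2 (e ▸ ((hn x _).1
        le_rfl).trans (List.suffix_cons _ _)))⟩
  have K : ∀ g, ∃ W : Set _, W.Finite ∧ ∃ m, ∀ x, (n (g * x) ≤ n x + m ∧ n x ≤ n (g * x) + m) ∧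
      ∀ i, ¬ (i + 1 ≤ n x ↔ i + 1 ≤ n (g * x)) → ∃ w ∈ W, ∃ b ∈ Q, x = w * of b * t ^ (i + 1) :=
    fun g => by
    induction g using induction_on with
    | of v =>
      refine ⟨∅, finite_empty, 0, fun x => ?_⟩
      simp [show n (of v * x) = n x by simp only [n, L, mul_smul, of_smul_eq_smul,
        group_smul_toList]]
    | t =>
      refine ⟨{t⁻¹}, finite_singleton _, 1, fun x => ?_⟩
      have e : (t * x) • (empty : NormalWord d) = unitsSMul φ 1 (x • empty) := by
        rw [mul_smul, t_smul_eq_unitsSMul]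
      by_cases c : Cancels 1 (x • (empty : NormalWord d))
      · obtain ⟨a, a1, a2⟩ : ∃ a : ℤˣ × V, a.1 = -1 ∧ L x = a :: L (t * x) := by
          simp only [L, e, unitsSMul, dif_pos c]
          generalize x • (empty : NormalWord d) = w at c
          induction w using consRecOn with
          | ofGroup => simp [Cancels] at c
          | cons g u w h1 h2 _ => exact ⟨(u, w.head), by simpa [Cancels] using c.2, rfl⟩
        refine ⟨(cn _ _ a a2).symm, fun i p => (p ?_).elim⟩
        rw [hn, hn, a2, List.suffix_cons_iff, or_iff_right fun c => ?_]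
        rw [← (List.cons.inj c).1] at a1
        cases a1
      obtain ⟨a', a⟩ : ∃ a, L (t * x) = a :: L x := ⟨_, by simp only [L, e, unitsSMul, dif_neg c]; rfl⟩
      refine ⟨cn _ _ _ a, fun i p => ⟨_, rfl, _, (unitsSMulGroup φ d 1
        (x • (empty : NormalWord d)).head).1.2, ?_⟩⟩
      rw [hn, hn, a, List.suffix_cons_iff] at p
      have := pr _ _ (a.trans (by tauto : R (i + 1) = _).symm)
      rw [prod_smul, NormalWord.prod_empty, mul_one, e, unitsSMul, dif_neg c] at this
      rw [mul_assoc, eq_inv_mul_iff_mul_eq]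
      exact this
    | mul a b p q =>
      obtain ⟨W, w, m, p⟩ := p
      obtain ⟨U, u, k, q⟩ := q
      refine ⟨U ∪ (b⁻¹ * ·) '' W, u.union (w.image _), m + k, fun x => ⟨?_, fun i c => ?_⟩⟩
      · have := (p (b * x)).1
        have := (q x).1
        rw [mul_assoc]
        omega
      by_cases e : i + 1 ≤ n x ↔ i + 1 ≤ n (b * x)
      · obtain ⟨w, w1, v, v1, v2⟩ := (p (b * x)).2 i (by rwa [← e, ← mul_assoc])
        exact ⟨_, .inr ⟨w, w1, rfl⟩, v, v1, by simp only [mul_assoc] at *; simp [← v2]⟩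
      exact ((q x).2 i e).imp fun _ c => ⟨.inl c.1, c.2⟩
    | inv a p =>
      obtain ⟨W, w, m, p⟩ := p
      refine ⟨(a * ·) '' W, w.image _, m, fun x => ?_⟩
      obtain ⟨p, q⟩ := p (a⁻¹ * x)
      rw [mul_inv_cancel_left] at p q
      refine ⟨p.symm, fun i c => ?_⟩
      obtain ⟨w, w1, v, v1, v2⟩ := q i fun e => c e.symm
      exact ⟨_, ⟨w, w1, rfl⟩, v, v1, by simp only [mul_assoc] at *; simp [← v2]⟩
  have F : ∀ g, {x | 2 * n x + 1 < n (g * x)}.Finite := fun g => by
    obtain ⟨W, w, m, p⟩ := K g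
    refine ((finite_Iio m).biUnion fun i _ => w.biUnion fun a _ => w.biUnion fun b _ =>
      Subsingleton.finite (s := {x | (∃ v ∈ Q, x = a * of v * t ^ (i + 1)) ∧
        ∃ v ∈ Q, x = b * of v * t ^ (i + 2)}) ?_).subset fun x c => ?_
    · rintro _ ⟨⟨u, u1, rfl⟩, v, v1, e⟩ _ ⟨⟨u', u2, rfl⟩, v', v2, e'⟩
      have : (of (u⁻¹ * u') : HNNExtension V P Q φ) = of (φ.symm ⟨v⁻¹ * v', mul_mem (inv_mem v1)
          v2⟩ : V) := by
        rw [equiv_symm_eq_conj, map_mul, map_mul, map_inv, map_inv]
        rw [pow_succ' t (i + 1), ← mul_assoc, mul_left_inj] at e e'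
        calc _ = (a * of u)⁻¹ * (a * of u') := by group
          _ = _ := by rw [e, e']; group
      rw [inv_mul_eq_one.1 (hPQ _ (of_injective φ this ▸ (φ.symm _).2) (mul_mem (inv_mem u1) u2))]
    have c : 2 * n x + 1 < n (g * x) := c
    have := (p x).1.1
    obtain ⟨a, a1, a2⟩ := (p x).2 (n x) (by omega)
    obtain ⟨b, b1, b2⟩ := (p x).2 (n x + 1) (by omega)
    exact mem_iUnion₂.2 ⟨n x, by simp; omega, mem_iUnion₂.2 ⟨a, a1, mem_iUnion₂.2 ⟨b, b1, a2, b2⟩⟩⟩
  have l : ∀ a b : ℕ, b ≤ 2 * a + 1 → Real.log (b + 1) - Real.log (a + 1) < 1 := fun a b c => by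
    rw [← Real.log_div (by positivity) (by positivity)]
    refine (Real.log_le_log (by positivity) ?_).trans_lt (Real.log_two_lt_d9.trans (by norm_num))
    rw [div_le_iff₀ (by positivity)]
    exact_mod_cast (by omega : b + 1 ≤ 2 * (a + 1))
  refine ⟨fun x => Real.log (n x + 1), ⟨2, two_pos, fun S s => ⟨_, (s.insert 1).biUnion fun g _ =>
    (F g).union ((F g⁻¹).preimage (mul_right_injective g).injOn), fun x c g p h q => ?_⟩⟩,
      fun ⟨B, b, M, c⟩ => ?_⟩
  · simp only [mem_iUnion, not_exists, mem_union, not_or, mem_preimage, mem_ofPred_eq, not_lt,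
      inv_mul_cancel_left] at c
    have := l _ _ (c g p).1
    have := l _ _ (c g p).2
    have := l _ _ (c h q).1
    have := l _ _ (c h q).2
    exact abs_lt.2 ⟨by linarith, by linarith⟩
  obtain ⟨N, e⟩ := (b.image fun x => |Real.log (n x + 1)|).bddAbove
  obtain ⟨k, hk⟩ := exists_nat_gt (Real.exp (max M N))
  let w : NormalWord d := ⟨⟨1, R k, List.isChain_replicate_of_rel _ fun _ => rfl⟩, fun u g p => by
    cases List.eq_of_mem_replicate p; exact t2 1⟩
  have : (k : ℝ) ≤ n (w.prod φ) := Nat.cast_le.2 ((hn _ _).2 (by rw [show L _ = R k from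
    congrArg (·.toList) (prod_smul_empty φ w)]))
  have := (Real.lt_log_iff_exp_lt (by positivity)).2 (show _ < (n (w.prod φ) : ℝ) + 1 by linarith)
  exact (this.trans_le (le_abs_self _)).not_ge ((Classical.em _).elim (fun p => le_max_of_le_right
    (e ⟨_, p, rfl⟩)) fun p => le_max_of_le_left (c _ p))

end Pool.Agent.H.MP_769d7c_al
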